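import Pool.Agent.Helper94.Tot.Goals

/-!
MP_05f971_nt, packet MX: the square part of `p - 1` is small on average.
-/

set_option autoImplicit false

open Finset Filter Topology

namespace Pool.Agent.Helper88.Tot

open Pool.Agent.Helper94.Tot

theorem lg_nonneg (n : ℕ) : 0 ≤ lg n := by
  unfold lg
  rcases Nat.eq_zero_or_pos n with h | h
  · subst h
    simp
  · exact Real.logb_nonneg (by norm_num) (by exact_mod_cast h)

theorem lg_mono {a b : ℕ} (ha : 0 < a) (h : a ≤ b) : lg a ≤ lg b := by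
  unfold lg
  exact Real.logb_le_logb_of_le (by norm_num) (by exact_mod_cast ha) (by exact_mod_cast h)

theorem lg_two_pow (n : ℕ) : lg (2 ^ n) = n := by
  unfold lg
  push_cast
  rw [Real.logb_pow, Real.logb_self_eq_one (by norm_num), mul_one]

theorem lg_mul {a b : ℕ} (ha : a ≠ 0) (hb : b ≠ 0) : lg (a * b) = lg a + lg b := by
  unfold lg
  push_cast
  exact Real.logb_mul (by exact_mod_cast ha) (by exact_mod_cast hb)

theorem lg_prod (s : Finset ℕ) (h : ∀ q ∈ s, q ≠ 0) : lg (∏ q ∈ s, q) = ∑ q ∈ s, lg q := by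
  unfold lg
  push_cast
  exact Real.logb_prod s (fun q : ℕ => (q : ℝ)) (fun q hq => by exact_mod_cast h q hq)

/-- the square part -/
theorem sq_part (s : ℕ) (hs : s ≠ 0) :
    ∃ b : ℕ, b ≠ 0 ∧ b ^ 2 ∣ s ∧ lg s - ∑ q ∈ s.primeFactors, lg q ≤ 2 * lg b := by
  obtain ⟨a, b, hab, ha⟩ := Nat.sq_mul_squarefree s
  have hb : b ≠ 0 := by
    rintro rfl
    simp at hab
    exact hs hab.symm
  have ha0 : a ≠ 0 := ha.ne_zero
  refine ⟨b, hb, ⟨a, hab.symm⟩, ?_⟩
  have h1 : lg s = 2 * lg b + lg a := by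
    rw [← hab, lg_mul (pow_ne_zero 2 hb) ha0, sq, lg_mul hb hb]
    ring
  have h2 : lg a = ∑ q ∈ a.primeFactors, lg q := by
    conv_lhs => rw [← Nat.prod_primeFactors_of_squarefree ha]
    exact lg_prod _ fun q hq => (Nat.prime_of_mem_primeFactors hq).ne_zero
  have h3 : ∑ q ∈ a.primeFactors, lg q ≤ ∑ q ∈ s.primeFactors, lg q := by
    refine Finset.sum_le_sum_of_subset_of_nonneg ?_ fun q _ _ => lg_nonneg q
    exact Nat.primeFactors_mono ⟨b ^ 2, by rw [← hab, mul_comm]⟩ hs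
  linarith

/-- pointwise bound -/
theorem mx_le (n Y p : ℕ) (hY : 1 ≤ Y) (hp : p ∈ DB n) :
    mx p ≤ 2 * lg Y + ∑ b ∈ (Ioc Y (2 ^ (n + 1))).filter (fun b => b ^ 2 ∣ p - 1), ((n : ℝ) + 1) := by
  unfold DB at hp
  rw [mem_filter, mem_Ioc] at hp
  obtain ⟨⟨h1, h2⟩, h3⟩ := hp
  have hs : p - 1 ≠ 0 := by
    have := h3.two_le
    omega
  obtain ⟨b, hb0, hb, hle⟩ := sq_part (p - 1) hs
  have hmx : mx p ≤ 2 * lg b := hle
  have hnn : (0 : ℝ) ≤ ∑ b ∈ (Ioc Y (2 ^ (n + 1))).filter (fun b => b ^ 2 ∣ p - 1), ((n : ℝ) + 1) :=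
    Finset.sum_nonneg fun _ _ => by positivity
  by_cases hbY : b ≤ Y
  · have := lg_mono (Nat.pos_of_ne_zero hb0) hbY
    linarith
  · push Not at hbY
    have hbp : b ≤ 2 ^ (n + 1) := by
      have h4 : b ^ 2 ≤ p - 1 := Nat.le_of_dvd (Nat.pos_of_ne_zero hs) hb
      have h5 : b ≤ b ^ 2 := Nat.le_self_pow (by norm_num) b
      omega
    have h4 : mx p ≤ (n : ℝ) + 1 := by
      have h5 : mx p ≤ lg (p - 1) := by
        unfold mx
        have : (0 : ℝ) ≤ ∑ q ∈ (p - 1).primeFactors, lg q :=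
          Finset.sum_nonneg fun q _ => lg_nonneg q
        linarith
      have h6 : lg (p - 1) ≤ lg (2 ^ (n + 1)) := lg_mono (Nat.pos_of_ne_zero hs) (by omega)
      rw [lg_two_pow] at h6
      push_cast at h6
      linarith
    have h5 : (n : ℝ) + 1 ≤
        ∑ b ∈ (Ioc Y (2 ^ (n + 1))).filter (fun b => b ^ 2 ∣ p - 1), ((n : ℝ) + 1) := by
      refine Finset.single_le_sum (f := fun _ : ℕ => (n : ℝ) + 1) (fun _ _ => by positivity)
        (?_ : b ∈ _)
      rw [mem_filter, mem_Ioc]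
      exact ⟨⟨hbY, hbp⟩, hb⟩
    have := lg_nonneg Y
    linarith

theorem card_dvd (n d : ℕ) : ((DB n).filter (fun p => d ∣ p - 1)).card ≤ 2 ^ (n + 1) / d := by
  rw [← Nat.Ioc_filter_dvd_card_eq_div (2 ^ (n + 1)) d]
  refine Finset.card_le_card_of_injOn (fun p => p - 1) ?_ ?_
  · intro p hp
    unfold DB at hp
    simp only [coe_filter, mem_filter, mem_Ioc, Set.mem_setOf_eq] at hp ⊢
    have := hp.1.2.two_le
    refine ⟨⟨by omega, by omega⟩, hp.2⟩
  · intro p hp q hq h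
    unfold DB at hp hq
    simp only [coe_filter, mem_filter, mem_Ioc, Set.mem_setOf_eq] at hp hq
    have := hp.1.2.two_le
    have := hq.1.2.two_le
    simp only at h
    omega

theorem card_DB {C : ℝ}
    (hC : ∀ d N : ℕ, 1 ≤ d → 2 ≤ N → (((Icc 1 N).filter (fun t => (d * t + 1).Prime)).card : ℝ)
      ≤ C * (N / Real.log N) * (d / (Nat.totient d : ℝ))) (n : ℕ) :
    ((DB n).card : ℝ) ≤ C * (2 ^ (n + 1) / (((n : ℝ) + 1) * Real.log 2)) := by
  have h1 := hC 1 (2 ^ (n + 1)) le_rfl (by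
    rw [pow_succ]
    have : 1 ≤ 2 ^ n := Nat.one_le_two_pow
    omega)
  have h2 : (DB n).card ≤ ((Icc 1 (2 ^ (n + 1))).filter (fun t => (1 * t + 1).Prime)).card := by
    refine Finset.card_le_card_of_injOn (fun p => p - 1) ?_ ?_
    · intro p hp
      unfold DB at hp
      simp only [coe_filter, mem_Icc, mem_Ioc, Set.mem_setOf_eq] at hp ⊢
      have := hp.2.two_le
      refine ⟨⟨by omega, by omega⟩, ?_⟩
      have h3 : 1 * (p - 1) + 1 = p := by omega
      rw [h3]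
      exact hp.2
    · intro p hp q hq h
      unfold DB at hp hq
      simp only [coe_filter, mem_Ioc, Set.mem_setOf_eq] at hp hq
      have := hp.2.two_le
      have := hq.2.two_le
      simp only at h
      omega
  have h3 : ((DB n).card : ℝ) ≤
      (((Icc 1 (2 ^ (n + 1))).filter (fun t => (1 * t + 1).Prime)).card : ℝ) := by
    exact_mod_cast h2
  refine h3.trans (h1.trans (le_of_eq ?_))
  push_cast
  rw [Real.log_pow, Nat.totient_one]
  push_cast
  ring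

theorem pf_MX (hBT : StmtBT) : StmtMX := by
  obtain ⟨C, hC0, hC⟩ := hBT
  have hl2 : 0 < Real.log 2 := Real.log_pos (by norm_num)
  refine ⟨2 * C / Real.log 2 * (8 / Real.log 2 + 1) + 2, by positivity, fun n hn => ?_⟩
  have hn0 : (0 : ℝ) < n := by exact_mod_cast hn
  set m : ℝ := (n : ℝ) + 1 with hm
  have hm0 : 0 < m := by positivity
  have hm1 : 1 ≤ m := by rw [hm]; linarith
  set Y : ℕ := (n + 1) ^ 2 with hY
  have hY1 : 1 ≤ Y := Nat.one_le_pow _ _ (by omega)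
  have hYm : (Y : ℝ) = m ^ 2 := by
    rw [hY, hm]
    push_cast
    ring
  -- step 1
  have h1 : ∑ p ∈ DB n, (mx p + 1) ≤ ∑ p ∈ DB n, ((2 * lg Y + 1) +
      ∑ b ∈ (Ioc Y (2 ^ (n + 1))).filter (fun b => b ^ 2 ∣ p - 1), m) := by
    refine Finset.sum_le_sum fun p hp => ?_
    have := mx_le n Y p hY1 hp
    linarith
  have h2 : ∑ p ∈ DB n, ((2 * lg Y + 1) +
      ∑ b ∈ (Ioc Y (2 ^ (n + 1))).filter (fun b => b ^ 2 ∣ p - 1), m) =
      (DB n).card * (2 * lg Y + 1) +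
        ∑ b ∈ Ioc Y (2 ^ (n + 1)), (((DB n).filter (fun p => b ^ 2 ∣ p - 1)).card : ℝ) * m := by
    rw [Finset.sum_add_distrib, Finset.sum_const, nsmul_eq_mul]
    congr 1
    have h3 : ∀ p ∈ DB n, ∑ b ∈ (Ioc Y (2 ^ (n + 1))).filter (fun b => b ^ 2 ∣ p - 1), m =
        ∑ b ∈ Ioc Y (2 ^ (n + 1)), if b ^ 2 ∣ p - 1 then m else 0 := by
      intro p _
      rw [Finset.sum_filter]
    rw [Finset.sum_congr rfl h3, Finset.sum_comm]
    refine Finset.sum_congr rfl fun b _ => ?_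
    rw [← Finset.sum_filter, Finset.sum_const, nsmul_eq_mul]
  -- the square part
  have h3 : ∑ b ∈ Ioc Y (2 ^ (n + 1)), (((DB n).filter (fun p => b ^ 2 ∣ p - 1)).card : ℝ) * m ≤
      2 ^ (n + 1) / m := by
    have e1 : ∀ b ∈ Ioc Y (2 ^ (n + 1)),
        (((DB n).filter (fun p => b ^ 2 ∣ p - 1)).card : ℝ) * m ≤
          2 ^ (n + 1) * m * ((b : ℝ) ^ 2)⁻¹ := by
      intro b _
      have e2 : (((DB n).filter (fun p => b ^ 2 ∣ p - 1)).card : ℝ) ≤ 2 ^ (n + 1) / (b : ℝ) ^ 2 := by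
        have e3 : (((DB n).filter (fun p => b ^ 2 ∣ p - 1)).card : ℝ) ≤
            ((2 ^ (n + 1) / b ^ 2 : ℕ) : ℝ) := by exact_mod_cast card_dvd n (b ^ 2)
        refine e3.trans ?_
        refine (Nat.cast_div_le).trans ?_
        push_cast
        exact le_rfl
      calc (((DB n).filter (fun p => b ^ 2 ∣ p - 1)).card : ℝ) * m
          ≤ (2 ^ (n + 1) / (b : ℝ) ^ 2) * m := mul_le_mul_of_nonneg_right e2 hm0.le
        _ = _ := by ring
    refine (Finset.sum_le_sum e1).trans ?_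
    rw [← Finset.mul_sum]
    have e4 : ∑ b ∈ Ioc Y (2 ^ (n + 1)), ((b : ℝ) ^ 2)⁻¹ ≤ (Y : ℝ)⁻¹ := by
      rcases le_or_gt Y (2 ^ (n + 1)) with h | h
      · have := sum_Ioc_inv_sq_le_sub (α := ℝ) (by omega : Y ≠ 0) h
        have h5 : (0 : ℝ) ≤ ((2 ^ (n + 1) : ℕ) : ℝ)⁻¹ := by positivity
        linarith
      · rw [Finset.Ioc_eq_empty_of_le h.le, Finset.sum_empty]
        positivity
    calc 2 ^ (n + 1) * m * ∑ b ∈ Ioc Y (2 ^ (n + 1)), ((b : ℝ) ^ 2)⁻¹
        ≤ 2 ^ (n + 1) * m * (Y : ℝ)⁻¹ := mul_le_mul_of_nonneg_left e4 (by positivity)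
      _ = 2 ^ (n + 1) / m := by
          rw [hYm]
          field_simp
  -- the main part
  have hsm : 0 < √m := Real.sqrt_pos.2 hm0
  have hlogm : Real.log m ≤ 2 * √m := by
    have e1 := Real.log_le_sub_one_of_pos hsm
    rw [Real.log_sqrt hm0.le] at e1
    linarith
  have hlgY : 2 * lg Y + 1 ≤ (8 / Real.log 2 + 1) * √m := by
    have e1 : lg Y = 2 * Real.log m / Real.log 2 := by
      unfold lg
      rw [hYm, Real.logb, Real.log_pow]
      push_cast
      ring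
    have e2 : 1 ≤ √m := by
      rw [Real.one_le_sqrt]
      exact hm1
    rw [e1]
    have e3 : 2 * Real.log m / Real.log 2 ≤ 2 * (2 * √m) / Real.log 2 := by
      refine div_le_div_of_nonneg_right ?_ hl2.le
      linarith
    have e4 : 2 * (2 * (2 * √m) / Real.log 2) = 8 / Real.log 2 * √m := by ring
    linarith
  have hcard := card_DB hC n
  have h4 : ((DB n).card : ℝ) * (2 * lg Y + 1) ≤
      2 * C / Real.log 2 * (8 / Real.log 2 + 1) * (2 ^ n / √m) := by
    have e1 : (0 : ℝ) ≤ 2 * lg Y + 1 := by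
      have := lg_nonneg Y
      linarith
    calc ((DB n).card : ℝ) * (2 * lg Y + 1)
        ≤ (C * (2 ^ (n + 1) / (m * Real.log 2))) * ((8 / Real.log 2 + 1) * √m) :=
          mul_le_mul hcard hlgY e1 (by positivity)
      _ = 2 * C / Real.log 2 * (8 / Real.log 2 + 1) * (2 ^ n / √m) := by
          have e5 : m = √m * √m := (Real.mul_self_sqrt hm0.le).symm
          have e6 : √m ≠ 0 := hsm.ne'
          rw [pow_succ]
          conv_lhs => rw [e5]
          rw [Real.sqrt_mul_self hsm.le]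
          field_simp
  have hsn : 0 < √(n : ℝ) := Real.sqrt_pos.2 hn0
  have hsnm : √(n : ℝ) ≤ √m := Real.sqrt_le_sqrt (by rw [hm]; linarith)
  have hsmm : √m ≤ m := by
    rw [Real.sqrt_le_left hm0.le]
    nlinarith
  have h5 : (2 : ℝ) ^ n / √m ≤ 2 ^ n / √(n : ℝ) :=
    div_le_div_of_nonneg_left (by positivity) hsn hsnm
  have h6 : (2 : ℝ) ^ (n + 1) / m ≤ 2 * (2 ^ n / √(n : ℝ)) := by
    have : (2 : ℝ) ^ n / m ≤ 2 ^ n / √(n : ℝ) :=
      div_le_div_of_nonneg_left (by positivity) hsn (hsnm.trans hsmm)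
    rw [pow_succ]
    calc (2 : ℝ) ^ n * 2 / m = 2 * (2 ^ n / m) := by ring
      _ ≤ _ := by linarith
  have h7 : 2 * C / Real.log 2 * (8 / Real.log 2 + 1) * (2 ^ n / √m) ≤
      2 * C / Real.log 2 * (8 / Real.log 2 + 1) * (2 ^ n / √(n : ℝ)) :=
    mul_le_mul_of_nonneg_left h5 (by positivity)
  have h8 : (2 * C / Real.log 2 * (8 / Real.log 2 + 1) + 2) * 2 ^ n / √(n : ℝ) =
      2 * C / Real.log 2 * (8 / Real.log 2 + 1) * (2 ^ n / √(n : ℝ)) + 2 * (2 ^ n / √(n : ℝ)) := by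
    ring
  rw [h8]
  linarith

end Pool.Agent.Helper88.Tot
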